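import Pool.Agent.Helper41.FX.StK2

set_option autoImplicit false

/-!
Project FX (MP_3bffab_ag), chapter K, module NZP.
-/

namespace Pool.Agent.Helper45.FX

open Polynomial Pool.Agent.Helper72.FX Pool.Agent.Helper41.FX

/-- **NZP** -/
theorem hNZP : StNZP := by
  intro A _ E s M _ _ hE
  refine ⟨fun g h => ?_⟩
  have key : ∀ g : PolynomialModule A M, pel E s • g = 0 → g = 0 := by
    intro g hg
    by_contra hne
    have hne' : g.coeff ≠ 0 := by
      intro h
      apply hne
      apply PolynomialModule.ext
      exact h
    have hsupp : g.coeff.support.Nonempty := Finsupp.support_nonempty_iff.2 hne'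
    set d := g.coeff.support.max' hsupp with hd
    have hd1 : g.coeff d ≠ 0 := Finsupp.mem_support_iff.1 (Finset.max'_mem _ hsupp)
    have hd2 : g.coeff (d + 1) = 0 := by
      by_contra h
      have h1 := Finset.le_max' _ _ (Finsupp.mem_support_iff.2 h)
      omega
    have h1 := pm_smul_coeff_succ E s g d
    have h2 : ((C E * X - C s : A[X]) • g) = 0 := hg
    rw [h2, hd2, smul_zero, sub_zero] at h1
    exact hd1 (hE _ h1.symm)
  have hg := key g.1 (LinearMap.mem_ker.1 g.2)
  have hh := key h.1 (LinearMap.mem_ker.1 h.2)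
  exact Subtype.ext (hg.trans hh.symm)

end Pool.Agent.Helper45.FX
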