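import Pool.Agent.Helper72.FX.StC1

set_option autoImplicit false

/-!
Project FX (MP_3bffab_ag), chapter K, module PMQ.
-/

namespace Pool.Agent.Helper45.FX

open Polynomial Pool.Agent.Helper72.FX

private theorem smul_single_coeff {A : Type} [CommRing A] (J : Ideal A) (p : A[X]) (n : ℕ) :
    (p • PolynomialModule.single A 0 (1 : A ⧸ J)).coeff n = Ideal.Quotient.mk J (p.coeff n) := by
  induction p using Polynomial.induction_on' with
  | add p q hp hq =>
    rw [add_smul, PolynomialModule.coeff_add, Finsupp.add_apply, hp, hq, Polynomial.coeff_add,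
      map_add]
  | monomial k a =>
    rw [PolynomialModule.monomial_smul_single, PolynomialModule.coeff_single,
      Finsupp.single_apply, Polynomial.coeff_monomial, add_zero]
    split_ifs
    · rw [Algebra.smul_def, mul_one]
      rfl
    · rw [map_zero]

/-- **PMQ** -/
theorem hPMQ : StPMQ := by
  intro A _ J
  let f : A[X] →ₗ[A[X]] PolynomialModule A (A ⧸ J) :=
    LinearMap.toSpanSingleton A[X] _ (PolynomialModule.single A 0 (1 : A ⧸ J))
  have hf : ∀ p : A[X], f p = p • PolynomialModule.single A 0 (1 : A ⧸ J) := fun p => rfl
  have hs : Function.Surjective f := by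
    intro g
    induction g using PolynomialModule.induction_linear with
    | zero => exact ⟨0, map_zero _⟩
    | add g h hg hh =>
      obtain ⟨p, hp⟩ := hg
      obtain ⟨q, hq⟩ := hh
      exact ⟨p + q, by rw [map_add, hp, hq]⟩
    | single n m =>
      obtain ⟨a, rfl⟩ := Ideal.Quotient.mk_surjective m
      refine ⟨monomial n a, ?_⟩
      rw [hf, PolynomialModule.monomial_smul_single, add_zero]
      congr 1
      rw [Algebra.smul_def, mul_one]
      rfl
  have hk : LinearMap.ker f = J.map C := by
    ext p
    rw [LinearMap.mem_ker, hf, Ideal.mem_map_C_iff]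
    constructor
    · intro h n
      have h1 := smul_single_coeff J p n
      rw [h] at h1
      exact Ideal.Quotient.eq_zero_iff_mem.1 h1.symm
    · intro h
      have h2 : ∀ n, (p • PolynomialModule.single A 0 (1 : A ⧸ J)).coeff n = 0 := by
        intro n
        rw [smul_single_coeff]
        exact Ideal.Quotient.eq_zero_iff_mem.2 (h n)
      apply PolynomialModule.ext
      exact Finsupp.ext fun n => h2 n
  exact ⟨(f.quotKerEquivOfSurjective hs).symm.trans (Submodule.quotEquivOfEq _ _ hk)⟩

end Pool.Agent.Helper45.FX
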