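import Pool.Agent.Helper9.FX.StP

set_option autoImplicit false

/-!
Project FX (MP_3bffab_ag), chapter T section T4, module PMX: elementary facts on 2 by 2 matrices.
-/

namespace Pool.Agent.Helper45.FX

open Set Complex Pool.Agent.Helper9.FX
open Pool.Agent.Helper72.FX (cc nu NN W1 W0 LL gg J0 SS)

private theorem det_NN (c : ℂ) (w : ℂ × ℂ) : (1 + c • NN w).det = 1 := by
  rw [Matrix.det_fin_two]
  simp [NN]
  ring

private theorem det_NN' (c : ℂ) (w : ℂ × ℂ) : (1 - c • NN w).det = 1 := by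
  have h := det_NN (-c) w
  rwa [neg_smul, ← sub_eq_add_neg] at h

private theorem det_LL (m : ℂ) (p q a b t : ℂ) : (LL m p q a b t).det = 1 := by
  unfold LL
  rw [Matrix.det_mul, det_NN, det_NN', mul_one]

private theorem det_gg (u a b t : ℂ) : (gg u a b t).det = 1 := by
  unfold gg
  rw [Matrix.det_mul, det_LL, det_LL, mul_one]

private theorem LL_zero (p q a b t : ℂ) : LL (0 : ℂ) p q a b t = 1 := by
  unfold LL
  simp

private theorem cont_NN {w : ℂ × ℂ × ℂ × ℂ → ℂ × ℂ} (hw : Continuous w) :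
    Continuous fun x => NN (w x) := by
  refine continuous_matrix fun i j => ?_
  fin_cases i <;> fin_cases j <;> simp [NN] <;> fun_prop

private theorem cont_LL {m : ℂ × ℂ × ℂ × ℂ → ℂ} (hm : Continuous m) (p q : ℂ) :
    Continuous fun x : ℂ × ℂ × ℂ × ℂ => LL (m x) p q x.2.1 x.2.2.1 x.2.2.2 := by
  have h1 : Continuous fun x : ℂ × ℂ × ℂ × ℂ => cc ℂ (1 / 2) * m x := continuous_const.mul hm
  have h2 : Continuous fun x : ℂ × ℂ × ℂ × ℂ => cc ℂ (1 / 2) * m x * x.2.2.2 :=
    h1.mul (by fun_prop)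
  have h3 : Continuous fun x : ℂ × ℂ × ℂ × ℂ => W1 p q x.2.1 x.2.2.1 x.2.2.2 := by
    unfold W1
    fun_prop
  have h4 : Continuous fun x : ℂ × ℂ × ℂ × ℂ => W0 p q x.2.1 x.2.2.1 x.2.2.2 := by
    unfold W0
    fun_prop
  unfold LL
  exact Continuous.matrix_mul (continuous_const.sub (h1.smul (cont_NN h3)))
    (continuous_const.add (h2.smul (cont_NN h4)))

/-- **PMX** -/
theorem hPMX : StPMX := by
  refine ⟨det_gg, ?_, ?_, ?_, ?_, ?_⟩
  · intro u a b t
    unfold SS
    generalize gg u a b t = g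
    simp [Matrix.mul_apply, Fin.sum_univ_two, J0]
    ring
  · intro u a b t
    unfold SS
    rw [Matrix.det_neg, Matrix.det_mul, Matrix.det_mul, Matrix.det_transpose, det_gg]
    simp [J0, Matrix.det_fin_two]
  · intro a b t
    unfold SS gg
    rw [mul_zero, LL_zero, LL_zero]
    simp
  · intro i j
    unfold SS
    have hJ : Continuous fun x : ℂ × ℂ × ℂ × ℂ => J0 x.2.2.2 := by
      refine continuous_matrix fun i j => ?_
      fin_cases i <;> fin_cases j <;> simp [J0] <;> fun_prop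
    have hg : Continuous fun x : ℂ × ℂ × ℂ × ℂ => gg x.1 x.2.1 x.2.2.1 x.2.2.2 := by
      unfold gg
      exact Continuous.matrix_mul (cont_LL (by fun_prop) _ _) (cont_LL (by fun_prop) _ _)
    exact (((hg.matrix_mul hJ).matrix_mul hg.matrix_transpose).neg).matrix_elem i j
  · intro U t M hU ht h10 hdet
    rw [Matrix.det_fin_two, h10] at hdet
    refine ⟨hU, ?_⟩
    change (M 1 1 + t) / t ^ 2 * (1 + t * ((M 0 0 - 1) / t)) = (M 0 0 - 1) / t + (M 0 1 / t) ^ 2
    field_simp
    linear_combination hdet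

end Pool.Agent.Helper45.FX
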