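import Pool.Agent.Helper87.FX.StD

set_option autoImplicit false

/-!
Project FX (MP_3bffab_ag), chapter S, module PRE: composition of an open cell with a linear
isomorphism.
-/

namespace Pool.Agent.Helper45.FX

open Set Topology Pool.Agent.Helper87.FX
open scoped ContDiff

/-- **PRE** -/
theorem hPRE : StPRE := by
  intro E E' V _ _ _ _ _ _ X e ι he
  have hr : range (fun x => e (ι x)) = range e := by
    have h : (fun x => e (ι x)) = e ∘ ι := rfl
    rw [h, range_comp, ι.surjective.range_eq, image_univ]
  refine ⟨⟨he.sm.comp ι.contDiff, ?_, he.emb.comp ι.toHomeomorph.isEmbedding, ?_, ?_⟩, hr⟩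
  · intro x
    have hd : DifferentiableAt ℝ e (ι x) :=
      (he.sm.differentiable (by simp)).differentiableAt
    have h1 : fderiv ℝ (fun x => e (ι x)) x = (fderiv ℝ e (ι x)).comp (ι : E' →L[ℝ] E) := by
      have := fderiv_comp x hd ι.differentiableAt
      rw [ι.fderiv] at this
      exact this
    rw [h1]
    exact (he.imm (ι x)).comp ι.injective
  · rw [hr]
    exact he.sub
  · obtain ⟨O, hO, h⟩ := he.opn
    exact ⟨O, hO, by rw [hr, h]⟩

end Pool.Agent.Helper45.FX
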