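import Pool.Agent.Helper84.FX.StG

set_option autoImplicit false

/-!
Project FX (MP_3bffab_ag), chapter T, module TDM: tame functions on double mapping cylinders.
-/

namespace Pool.Agent.Helper45.FX

open Set Pool.Agent.Helper84.FX

private theorem we_homeo (hHEQ : StHEQ) {E F : Type} [TopologicalSpace E] [TopologicalSpace F]
    {X : Set E} {Y : Set F} {f : E → F} {g : F → E} (hf : Mp X Y f) (hg : Mp Y X g)
    (h1 : ∀ x ∈ X, g (f x) = x) (h2 : ∀ y ∈ Y, f (g y) = y) : WE X Y f := by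
  refine hHEQ E F X Y f g hf hg ?_ ?_
  · exact ⟨fun q => q.2, ⟨continuous_snd.continuousOn, fun q hq => hq.2⟩,
      fun x hx => (h1 x hx).symm, fun x _ => rfl⟩
  · exact ⟨fun q => q.2, ⟨continuous_snd.continuousOn, fun q hq => hq.2⟩,
      fun x hx => (h2 x hx).symm, fun x _ => rfl⟩

/-- a set that retracts along the real coordinate -/
private theorem we_fst (hHEQ : StHEQ) {E : Type} [TopologicalSpace E] {X : Set (E × ℝ)}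
    {A : Set E} (c : ℝ) (ha : ∀ q ∈ X, q.1 ∈ A) (hb : ∀ x ∈ A, (x, c) ∈ X)
    (hc : ∀ q ∈ X, ∀ s ∈ II, (q.1, (1 - s) * c + s * q.2) ∈ X) : WE X A Prod.fst := by
  refine hHEQ (E × ℝ) E X A Prod.fst (fun x => (x, c)) ⟨continuous_fst.continuousOn, ha⟩
    ⟨(continuous_id.prodMk continuous_const).continuousOn, hb⟩ ?_ ?_
  · refine ⟨fun q => (q.2.1, (1 - q.1) * c + q.1 * q.2.2), ⟨?_, ?_⟩, ?_, ?_⟩
    · exact Continuous.continuousOn (by fun_prop)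
    · intro q hq
      exact hc q.2 hq.2 q.1 hq.1
    · intro x _
      simp
    · intro x _
      simp
  · exact ⟨fun q => q.2, ⟨continuous_snd.continuousOn, fun q hq => hq.2⟩,
      fun x _ => rfl, fun x _ => rfl⟩

private theorem we_piece (hCMP : StCMP) (hCN2 : StCN2) (hHEQ : StHEQ) {E F : Type}
    [TopologicalSpace E] [TopologicalSpace F] {X : Set (E × ℝ)} {Y : Set (F × ℝ)} {A : Set E}
    {B : Set F} {φ : E → F} (c : ℝ) (hφ : WE A B φ)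
    (ha : ∀ q ∈ X, q.1 ∈ A) (hb : ∀ x ∈ A, (x, c) ∈ X)
    (hc : ∀ q ∈ X, ∀ s ∈ II, (q.1, (1 - s) * c + s * q.2) ∈ X)
    (ha' : ∀ q ∈ Y, q.1 ∈ B) (hb' : ∀ x ∈ B, (x, c) ∈ Y)
    (hc' : ∀ q ∈ Y, ∀ s ∈ II, (q.1, (1 - s) * c + s * q.2) ∈ Y)
    (hm : ∀ q ∈ X, (φ q.1, q.2) ∈ Y) : WE X Y (fun q => (φ q.1, q.2)) := by
  have h1 := we_fst hHEQ c ha hb hc
  have h2 := we_fst hHEQ c ha' hb' hc'
  have h3 := hCMP (E × ℝ) E F X A B Prod.fst φ h1 hφ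
  refine hCN2 (E × ℝ) (F × ℝ) F X Y B (fun q => (φ q.1, q.2)) Prod.fst ⟨?_, hm⟩ h2 h3
  exact (hφ.1.1.comp continuous_fst.continuousOn ha).prodMk continuous_snd.continuousOn

/-- double mapping cylinders preserve weak equivalences -/
private theorem we_dm (hGLU : StGLU) (hCMP : StCMP) (hCN2 : StCN2) (hHEQ : StHEQ) {E F : Type}
    [TopologicalSpace E] [TopologicalSpace F] {A₁ A₂ : Set E} {B₁ B₂ : Set F} {φ : E → F}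
    (h₁ : WE A₁ B₁ φ) (h₂ : WE A₂ B₂ φ) (h₁₂ : WE (A₁ ∩ A₂) (B₁ ∩ B₂) φ) :
    WE (DM A₁ A₂) (DM B₁ B₂) (fun q => (φ q.1, q.2)) := by
  have hmap : ∀ q ∈ DM A₁ A₂, (φ q.1, q.2) ∈ DM B₁ B₂ := by
    rintro q ⟨h0, h1, h2, h3⟩
    exact ⟨h0, h1, fun h => h₁.1.2 (h2 h), fun h => h₂.1.2 (h3 h)⟩
  have hs0 : ∀ s ∈ II, ∀ r : ℝ, 0 ≤ r → r < 1 → 0 ≤ (1 - s) * 0 + s * r ∧
      (1 - s) * 0 + s * r < 1 ∧ (0 < (1 - s) * 0 + s * r → 0 < r) := by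
    rintro s ⟨hs0, hs1⟩ r hr0 hr1
    refine ⟨by nlinarith, by nlinarith, fun h => ?_⟩
    by_contra hr
    have hr' : r = 0 := le_antisymm (not_lt.1 hr) hr0
    rw [hr'] at h
    simp at h
  have hs1 : ∀ s ∈ II, ∀ r : ℝ, 0 < r → r ≤ 1 → 0 < (1 - s) * 1 + s * r ∧
      (1 - s) * 1 + s * r ≤ 1 ∧ ((1 - s) * 1 + s * r < 1 → r < 1) := by
    rintro s ⟨hs0, hs1⟩ r hr0 hr1
    refine ⟨?_, by nlinarith, fun h => ?_⟩
    · rcases eq_or_lt_of_le hs1 with h | h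
      · rw [h]
        linarith
      · nlinarith
    · by_contra hr
      have hr' : r = 1 := le_antisymm hr1 (not_lt.1 hr)
      rw [hr'] at h
      linarith
  have hs2 : ∀ s ∈ II, ∀ r : ℝ, 0 < r → r < 1 → 0 < (1 - s) * (1 / 2) + s * r ∧
      (1 - s) * (1 / 2) + s * r < 1 := by
    rintro s ⟨hs0, hs1⟩ r hr0 hr1
    rcases eq_or_lt_of_le hs1 with h | h
    · rw [h]
      constructor <;> linarith
    · constructor <;> nlinarith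
  refine hGLU (E × ℝ) (F × ℝ) (DM A₁ A₂) (DM B₁ B₂) (fun q => (φ q.1, q.2))
    {q | q.2 < 1} {q | 0 < q.2} {q | q.2 < 1} {q | 0 < q.2}
    (isOpen_lt continuous_snd continuous_const) (isOpen_lt continuous_const continuous_snd)
    (isOpen_lt continuous_snd continuous_const) (isOpen_lt continuous_const continuous_snd)
    ?_ ?_ ?_ ?_ ?_
  · intro q _
    rcases lt_or_ge q.2 1 with h | h
    · exact Or.inl h
    · exact Or.inr (show (0 : ℝ) < q.2 by linarith)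
  · intro q _
    rcases lt_or_ge q.2 1 with h | h
    · exact Or.inl h
    · exact Or.inr (show (0 : ℝ) < q.2 by linarith)
  · refine we_piece hCMP hCN2 hHEQ 0 h₁ ?_ ?_ ?_ ?_ ?_ ?_ ?_
    · rintro q ⟨⟨h0, h1, h2, h3⟩, h4⟩
      exact h2 h4
    · intro x hx
      exact ⟨⟨le_refl _, zero_le_one, fun _ => hx, fun h => absurd h (lt_irrefl _)⟩,
        show (0 : ℝ) < 1 by norm_num⟩
    · rintro q ⟨⟨h0, h1, h2, h3⟩, h4⟩ s hs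
      obtain ⟨k1, k2, k3⟩ := hs0 s hs q.2 h0 h4
      exact ⟨⟨k1, k2.le, fun _ => h2 h4, fun h => h3 (k3 h)⟩, k2⟩
    · rintro q ⟨⟨h0, h1, h2, h3⟩, h4⟩
      exact h2 h4
    · intro x hx
      exact ⟨⟨le_refl _, zero_le_one, fun _ => hx, fun h => absurd h (lt_irrefl _)⟩,
        show (0 : ℝ) < 1 by norm_num⟩
    · rintro q ⟨⟨h0, h1, h2, h3⟩, h4⟩ s hs
      obtain ⟨k1, k2, k3⟩ := hs0 s hs q.2 h0 h4
      exact ⟨⟨k1, k2.le, fun _ => h2 h4, fun h => h3 (k3 h)⟩, k2⟩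
    · rintro q ⟨hq, h4⟩
      exact ⟨hmap q hq, h4⟩
  · refine we_piece hCMP hCN2 hHEQ 1 h₂ ?_ ?_ ?_ ?_ ?_ ?_ ?_
    · rintro q ⟨⟨h0, h1, h2, h3⟩, h4⟩
      exact h3 h4
    · intro x hx
      exact ⟨⟨zero_le_one, le_refl _, fun h => absurd h (lt_irrefl _), fun _ => hx⟩,
        show (0 : ℝ) < 1 by norm_num⟩
    · rintro q ⟨⟨h0, h1, h2, h3⟩, h4⟩ s hs
      obtain ⟨k1, k2, k3⟩ := hs1 s hs q.2 h4 h1
      exact ⟨⟨k1.le, k2, fun h => h2 (k3 h), fun _ => h3 h4⟩, k1⟩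
    · rintro q ⟨⟨h0, h1, h2, h3⟩, h4⟩
      exact h3 h4
    · intro x hx
      exact ⟨⟨zero_le_one, le_refl _, fun h => absurd h (lt_irrefl _), fun _ => hx⟩,
        show (0 : ℝ) < 1 by norm_num⟩
    · rintro q ⟨⟨h0, h1, h2, h3⟩, h4⟩ s hs
      obtain ⟨k1, k2, k3⟩ := hs1 s hs q.2 h4 h1
      exact ⟨⟨k1.le, k2, fun h => h2 (k3 h), fun _ => h3 h4⟩, k1⟩
    · rintro q ⟨hq, h4⟩
      exact ⟨hmap q hq, h4⟩
  · refine we_piece hCMP hCN2 hHEQ (1 / 2) h₁₂ ?_ ?_ ?_ ?_ ?_ ?_ ?_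
    · rintro q ⟨⟨h0, h1, h2, h3⟩, h4, h5⟩
      exact ⟨h2 h4, h3 h5⟩
    · rintro x ⟨hx1, hx2⟩
      exact ⟨⟨by norm_num, by norm_num, fun _ => hx1, fun _ => hx2⟩,
        show (1 / 2 : ℝ) < 1 by norm_num, show (0 : ℝ) < 1 / 2 by norm_num⟩
    · rintro q ⟨⟨h0, h1, h2, h3⟩, h4, h5⟩ s hs
      obtain ⟨k1, k2⟩ := hs2 s hs q.2 h5 h4
      exact ⟨⟨k1.le, k2.le, fun _ => h2 h4, fun _ => h3 h5⟩, k2, k1⟩
    · rintro q ⟨⟨h0, h1, h2, h3⟩, h4, h5⟩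
      exact ⟨h2 h4, h3 h5⟩
    · rintro x ⟨hx1, hx2⟩
      exact ⟨⟨by norm_num, by norm_num, fun _ => hx1, fun _ => hx2⟩,
        show (1 / 2 : ℝ) < 1 by norm_num, show (0 : ℝ) < 1 / 2 by norm_num⟩
    · rintro q ⟨⟨h0, h1, h2, h3⟩, h4, h5⟩ s hs
      obtain ⟨k1, k2⟩ := hs2 s hs q.2 h5 h4
      exact ⟨⟨k1.le, k2.le, fun _ => h2 h4, fun _ => h3 h5⟩, k2, k1⟩
    · rintro q ⟨hq, h4⟩
      exact ⟨hmap q hq, h4⟩

/-- **TDM** -/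
theorem hTDM : StGLU → StCMP → StCN2 → StCN3 → StHEQ → StHTP → StTDM := by
  intro hGLU hCMP hCN2 _ hHEQ _ E V _ _ _ _ N₁ N₂ g ht₁ ht₂ ht₁₂ hg
  have hfst : MapsTo Prod.fst (DM N₁ N₂) (N₁ ∪ N₂) := by
    rintro q ⟨h0, h1, h2, h3⟩
    rcases lt_or_ge q.2 1 with h | h
    · exact Or.inl (h2 h)
    · exact Or.inr (h3 (by linarith))
  refine ⟨hg.comp continuous_fst.continuousOn hfst, ?_, ?_⟩
  · have hI : TT N₁ g ∩ TT N₂ g = TT (N₁ ∩ N₂) g := by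
      ext q
      constructor
      · rintro ⟨⟨a, b, c⟩, ⟨d, _, _⟩⟩
        exact ⟨⟨a, d⟩, b, c⟩
      · rintro ⟨⟨a, d⟩, b, c⟩
        exact ⟨⟨a, b, c⟩, ⟨d, b, c⟩⟩
    have h12 : WE (TT N₁ g ∩ TT N₂ g) (N₁ ∩ N₂) Prod.fst := by
      rw [hI]
      exact ht₁₂.2.1
    have h1 := we_dm hGLU hCMP hCN2 hHEQ ht₁.2.1 ht₂.2.1 h12
    have h2 : WE (TT (DM N₁ N₂) (fun q => g q.1)) (DM (TT N₁ g) (TT N₂ g))
        (fun p => ((p.1.1, p.2), p.1.2)) := by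
      refine we_homeo (g := fun p => ((p.1.1, p.2), p.1.2)) hHEQ ⟨?_, ?_⟩ ⟨?_, ?_⟩
        (fun _ _ => rfl) (fun _ _ => rfl)
      · exact Continuous.continuousOn (by fun_prop)
      · rintro p ⟨⟨h0, h1, h2, h3⟩, h4, h5⟩
        exact ⟨h0, h1, fun h => ⟨h2 h, h4, h5⟩, fun h => ⟨h3 h, h4, h5⟩⟩
      · exact Continuous.continuousOn (by fun_prop)
      · rintro p ⟨h0, h1, h2, h3⟩
        have h6 : ‖p.1.2‖ ≤ 1 ∧ g p.1.1 = ‖g p.1.1‖ • p.1.2 := by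
          rcases lt_or_ge p.2 1 with h | h
          · exact (h2 h).2
          · exact (h3 (by linarith)).2
        exact ⟨⟨h0, h1, fun h => (h2 h).1, fun h => (h3 h).1⟩, h6.1, h6.2⟩
    have h3 := hCMP _ _ _ _ _ _ (fun p : (E × ℝ) × V => ((p.1.1, p.2), p.1.2))
      (fun q : (E × V) × ℝ => (Prod.fst q.1, q.2)) h2 h1
    exact h3
  · have hI : {x | x ∈ N₁ ∧ g x ≠ 0} ∩ {x | x ∈ N₂ ∧ g x ≠ 0} = {x | x ∈ N₁ ∩ N₂ ∧ g x ≠ 0} := by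
      ext x
      constructor
      · rintro ⟨⟨a, b⟩, ⟨c, _⟩⟩
        exact ⟨⟨a, c⟩, b⟩
      · rintro ⟨⟨a, c⟩, b⟩
        exact ⟨⟨a, b⟩, ⟨c, b⟩⟩
    have hJ : {q | q ∈ TT N₁ g ∧ q.2 ≠ 0} ∩ {q | q ∈ TT N₂ g ∧ q.2 ≠ 0} =
        {q | q ∈ TT (N₁ ∩ N₂) g ∧ q.2 ≠ 0} := by
      ext q
      constructor
      · rintro ⟨⟨⟨a, b, c⟩, h⟩, ⟨⟨d, _, _⟩, _⟩⟩
        exact ⟨⟨⟨a, d⟩, b, c⟩, h⟩
      · rintro ⟨⟨⟨a, d⟩, b, c⟩, h⟩
        exact ⟨⟨⟨a, b, c⟩, h⟩, ⟨⟨d, b, c⟩, h⟩⟩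
    have h12 : WE ({x | x ∈ N₁ ∧ g x ≠ 0} ∩ {x | x ∈ N₂ ∧ g x ≠ 0})
        ({q | q ∈ TT N₁ g ∧ q.2 ≠ 0} ∩ {q | q ∈ TT N₂ g ∧ q.2 ≠ 0})
        (fun x => (x, ‖g x‖⁻¹ • g x)) := by
      rw [hI, hJ]
      exact ht₁₂.2.2
    have h1 := we_dm hGLU hCMP hCN2 hHEQ ht₁.2.2 ht₂.2.2 h12
    have hX : DM {x | x ∈ N₁ ∧ g x ≠ 0} {x | x ∈ N₂ ∧ g x ≠ 0} =
        {q | q ∈ DM N₁ N₂ ∧ g q.1 ≠ 0} := by
      ext q
      constructor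
      · rintro ⟨h0, h1, h2, h3⟩
        refine ⟨⟨h0, h1, fun h => (h2 h).1, fun h => (h3 h).1⟩, ?_⟩
        rcases lt_or_ge q.2 1 with h | h
        · exact (h2 h).2
        · exact (h3 (by linarith)).2
      · rintro ⟨⟨h0, h1, h2, h3⟩, h4⟩
        exact ⟨h0, h1, fun h => ⟨h2 h, h4⟩, fun h => ⟨h3 h, h4⟩⟩
    rw [hX] at h1
    have h2 : WE (DM {q | q ∈ TT N₁ g ∧ q.2 ≠ 0} {q | q ∈ TT N₂ g ∧ q.2 ≠ 0})
        {p | p ∈ TT (DM N₁ N₂) (fun q => g q.1) ∧ p.2 ≠ 0}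
        (fun p => ((p.1.1, p.2), p.1.2)) := by
      refine we_homeo (g := fun p => ((p.1.1, p.2), p.1.2)) hHEQ ⟨?_, ?_⟩ ⟨?_, ?_⟩
        (fun _ _ => rfl) (fun _ _ => rfl)
      · exact Continuous.continuousOn (by fun_prop)
      · rintro p ⟨h0, h1, h2, h3⟩
        have h6 : (‖p.1.2‖ ≤ 1 ∧ g p.1.1 = ‖g p.1.1‖ • p.1.2) ∧ p.1.2 ≠ 0 := by
          rcases lt_or_ge p.2 1 with h | h
          · exact ⟨(h2 h).1.2, (h2 h).2⟩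
          · exact ⟨(h3 (by linarith)).1.2, (h3 (by linarith)).2⟩
        exact ⟨⟨⟨h0, h1, fun h => (h2 h).1.1, fun h => (h3 h).1.1⟩, h6.1.1, h6.1.2⟩, h6.2⟩
      · exact Continuous.continuousOn (by fun_prop)
      · rintro p ⟨⟨⟨h0, h1, h2, h3⟩, h4, h5⟩, h6⟩
        exact ⟨h0, h1, fun h => ⟨⟨h2 h, h4, h5⟩, h6⟩, fun h => ⟨⟨h3 h, h4, h5⟩, h6⟩⟩
    have h3 := hCMP _ _ _ _ _ _ (fun q : E × ℝ => ((q.1, ‖g q.1‖⁻¹ • g q.1), q.2))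
      (fun p : (E × V) × ℝ => ((p.1.1, p.2), p.1.2)) h1 h2
    exact h3

end Pool.Agent.Helper45.FX
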